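import Pool.Agent.Helper61.TL.Tile
import Pool.Agent.Helper94.T1.Square

/-!
# Block A: Theorem A for the structure `Tiling`
-/

set_option autoImplicit false

namespace Pool.Agent.Helper61.TL

open OrderDual in
/-- **Theorem A**, with equality: a squared square with the sum of the sides `3 m - 2` and `A ≤ M` has `A = M`. -/
theorem Tiling.square_eq {X : Type*} [LinearOrder X] {m : ℕ} {A M : X ≃o X} {ι : Type*} [Fintype ι]
    (T : Tiling X m m A M ι) (hm : 0 < m) (hsum : ∑ e, T.sz e + 2 = 3 * m) (h : ∀ z, A z ≤ M z) :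
    ∀ z, M z = A z := by
  have hcell : ∀ e (x : X), T.rt e ((T.lt e).symm x) ≤ T.up e ((T.lo e).symm x) := by
    intro e x
    refine T.cell e _ _ ?_
    rw [OrderIso.apply_symm_apply, OrderIso.apply_symm_apply]
  have h1 := Pool.Agent.Helper94.T1.square (X := Xᵒᵈ) hm (al := T.al) (yt := T.yt) (sz := T.sz) T.pos T.colb T.rowb
    (by
      intro i hi j hj
      obtain ⟨e, h1, h2, h3, h4⟩ := T.cover i hi j hj
      exact ⟨e, ⟨⟨h1, h2⟩, h3, h4⟩, fun e' he' => (T.disj e e' i j ⟨h1, h2, h3, h4⟩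
        ⟨he'.1.1, he'.1.2, he'.2.1, he'.2.2⟩).symm⟩)
    hsum (fun e => (T.lo e).dual) (fun e => (T.up e).dual) (fun e => (T.lt e).dual) (fun e => (T.rt e).dual) A.dual M.dual
    (fun e x => hcell e (ofDual x))
    (fun e e' i h1 h2 h3 h4 h5 x => (T.vert e e' i h1 h2 h3 h4 h5.symm (ofDual x)).le)
    (fun e h1 x => (T.bot e h1 (ofDual x)).ge)
    (fun e h1 x => (T.top e h1 (ofDual x)).le)
    (fun e e' j h1 h2 h3 h4 h5 x => T.horz e e' j h1 h2 h3 h4 h5.symm (ofDual x))
    (fun e h1 x => T.left e h1 (ofDual x))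
    (fun e h1 x => T.right e h1 (ofDual x))
    (fun x => h (ofDual x))
  exact fun z => h1 (toDual z)

theorem Tiling.square {X : Type*} [LinearOrder X] [Nonempty X] {m : ℕ} {A M : X ≃o X} {ι : Type*} [Fintype ι]
    (T : Tiling X m m A M ι) (hm : 0 < m) (hsum : ∑ e, T.sz e + 2 = 3 * m) : ∃ z, M z ≤ A z := by
  by_contra hno
  push Not at hno
  obtain ⟨z⟩ := ‹Nonempty X›
  exact (hno z).ne' (T.square_eq hm hsum (fun z => (hno z).le) z)

end Pool.Agent.Helper61.TL
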